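import Mathlib

set_option autoImplicit false

open Set

namespace Pool.Agent.H370.OmegaOneCore

universe u v

theorem exists_closure {α : Type u} (F : α → α → Set α) (hF : ∀ x y, (F x y).Countable)
    (M₀ : Set α) (hM : M₀.Countable) :
    ∃ M : Set α, M₀ ⊆ M ∧ M.Countable ∧ ∀ x ∈ M, ∀ y ∈ M, F x y ⊆ M := by
  classical
  let G : Set α → Set α := fun S => S ∪ ⋃ x ∈ S, ⋃ y ∈ S, F x y
  have hGc : ∀ S : Set α, S.Countable → (G S).Countable := by
    intro S hS
    refine hS.union (hS.biUnion fun x _ => hS.biUnion fun y _ => hF x y)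
  have hit : ∀ n : ℕ, (G^[n] M₀).Countable := by
    intro n
    induction n with
    | zero => simpa using hM
    | succ n ih => rw [Function.iterate_succ_apply']; exact hGc _ ih
  have hstep : ∀ n : ℕ, G^[n] M₀ ⊆ G^[n+1] M₀ := by
    intro n
    rw [Function.iterate_succ_apply']
    exact subset_union_left
  have hmono : Monotone (fun n : ℕ => G^[n] M₀) := monotone_nat_of_le_succ hstep
  refine ⟨⋃ n : ℕ, G^[n] M₀, ?_, countable_iUnion hit, ?_⟩
  · exact subset_iUnion (fun n : ℕ => G^[n] M₀) 0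
  · intro x hx y hy z hz
    obtain ⟨n, hn⟩ := mem_iUnion.1 hx
    obtain ⟨m, hm⟩ := mem_iUnion.1 hy
    refine mem_iUnion.2 ⟨max n m + 1, ?_⟩
    rw [Function.iterate_succ_apply']
    refine Or.inr ?_
    refine mem_iUnion₂.2 ⟨x, hmono (le_max_left n m) hn, ?_⟩
    exact mem_iUnion₂.2 ⟨y, hmono (le_max_right n m) hm, hz⟩

section Nb
variable {V : Type u} {k : ℕ}

/-- neighbours of `v` in colour `i` -/
def Nb (c : V → V → Fin (k + 1)) (i : Fin (k + 1)) (v : V) : Set V := {w | w ≠ v ∧ c v w = i}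

theorem exists_of_unc {E : Set V} (h : ¬ E.Countable) : E.Nonempty := by
  by_contra hne
  rw [not_nonempty_iff_eq_empty] at hne
  exact h (hne ▸ countable_empty)

theorem thin_one (c : V → V → Fin (k + 1))
    (htri : ∀ i, i ≠ 0 → ∀ x y z, x ≠ y → x ≠ z → y ≠ z → c x y = i → c x z = i → c y z = i → False)
    (P : Finset (Fin (k + 1))) :
    ∀ E : Set V, ¬ E.Countable →
      (∀ x ∈ E, ∀ y ∈ E, x ≠ y → c x y ≠ 0 → c x y ∈ P) →
      ∃ E' ⊆ E, ¬ E'.Countable ∧ ∀ v ∈ E', ∀ i, i ≠ 0 → (Nb c i v ∩ E').Countable := by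
  classical
  induction P using Finset.strongInduction with
  | H P ih =>
    intro E hE hP
    by_cases h : ∃ v ∈ E, ∃ i, i ≠ 0 ∧ ¬ (Nb c i v ∩ E).Countable
    · obtain ⟨v, hv, i, hi, hun⟩ := h
      obtain ⟨w, hw⟩ := exists_of_unc hun
      have hiP : i ∈ P := by
        have := hP v hv w hw.2 hw.1.1.symm (by rw [hw.1.2]; exact hi)
        rwa [hw.1.2] at this
      obtain ⟨E', hE', h1, h2⟩ := ih (P.erase i) (Finset.erase_ssubset hiP) (Nb c i v ∩ E) hun (by
        intro x hx y hy hxy hc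
        refine Finset.mem_erase.2 ⟨?_, hP x hx.2 y hy.2 hxy hc⟩
        intro hci
        exact htri i hi v x y hx.1.1.symm hy.1.1.symm hxy hx.1.2 hy.1.2 hci)
      exact ⟨E', hE'.trans inter_subset_right, h1, h2⟩
    · push Not at h
      exact ⟨E, subset_rfl, hE, h⟩

variable {Ω : Type v}

/-- the invariants for a sequence of columns -/
structure Good (π : V → Ω) (c : V → V → Fin (k + 1)) (E : ℕ → Set V) (a : ℕ → Ω) : Prop where
  unc : ∀ n, ¬ (E n).Countable
  col : ∀ n, ∀ x ∈ E n, π x = a n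
  inj : Function.Injective a
  low : ∀ n m, n ≤ m → ∀ v ∈ E m, ∀ i, i ≠ 0 → (Nb c i v ∩ E n).Countable

theorem Good.sub {π : V → Ω} {c : V → V → Fin (k + 1)} {E : ℕ → Set V} {a : ℕ → Ω}
    (hG : Good π c E a) {e : ℕ → ℕ} (he : StrictMono e) {E' : ℕ → Set V}
    (hE' : ∀ n, E' n ⊆ E (e n)) (hun : ∀ n, ¬ (E' n).Countable) :
    Good π c E' (a ∘ e) where
  unc := hun
  col := fun n x hx => hG.col (e n) x (hE' n hx)
  inj := hG.inj.comp he.injective
  low := fun n m hnm v hv i hi =>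
    (hG.low (e n) (e m) (he.monotone hnm) v (hE' m hv) i hi).mono
      (inter_subset_inter_right _ (hE' n))

theorem thin_seq (π : V → Ω) (c : V → V → Fin (k + 1))
    (htri : ∀ i, i ≠ 0 → ∀ x y z, x ≠ y → x ≠ z → y ≠ z → c x y = i → c x z = i → c y z = i → False)
    (P : Finset (Fin (k + 1))) :
    ∀ (E : ℕ → Set V) (a : ℕ → Ω), Good π c E a →
      (∀ n, ∀ x ∈ E n, ∀ m, ∀ y ∈ E m, x ≠ y → c x y ≠ 0 → c x y ∈ P) →
      ∃ (E' : ℕ → Set V) (a' : ℕ → Ω), Good π c E' a' ∧
        ∀ n m, ∀ v ∈ E' m, ∀ i, i ≠ 0 → (Nb c i v ∩ E' n).Countable := by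
  classical
  induction P using Finset.strongInduction with
  | H P ih =>
    intro E a hG hP
    by_cases h : ∃ n, ∃ v ∈ E n, ∃ i, i ≠ 0 ∧ {m | ¬ (Nb c i v ∩ E m).Countable}.Infinite
    · obtain ⟨n₀, v, hv, i, hi, hinf⟩ := h
      let e : ℕ → ℕ := Nat.nth (fun m => ¬ (Nb c i v ∩ E m).Countable)
      have he : StrictMono e := Nat.nth_strictMono hinf
      have hmem : ∀ n, ¬ (Nb c i v ∩ E (e n)).Countable := fun n => Nat.nth_mem_of_infinite hinf n
      have hiP : i ∈ P := by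
        obtain ⟨w, hw⟩ := exists_of_unc (hmem 0)
        have := hP n₀ v hv _ w hw.2 hw.1.1.symm (by rw [hw.1.2]; exact hi)
        rwa [hw.1.2] at this
      refine ih (P.erase i) (Finset.erase_ssubset hiP) (fun n => Nb c i v ∩ E (e n)) (a ∘ e)
        (hG.sub he (fun n => inter_subset_right) hmem) ?_
      intro n x hx m y hy hxy hc
      refine Finset.mem_erase.2 ⟨?_, hP (e n) x hx.2 (e m) y hy.2 hxy hc⟩
      intro hci
      exact htri i hi v x y hx.1.1.symm hy.1.1.symm hxy hx.1.2 hy.1.2 hci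
    · push Not at h
      -- finite sets of bad columns
      have hfin : ∀ n, ∀ v ∈ E n, {m | ∃ i : Fin (k + 1), i ≠ 0 ∧ ¬ (Nb c i v ∩ E m).Countable}.Finite := by
        intro n v hv
        have : {m | ∃ i : Fin (k + 1), i ≠ 0 ∧ ¬ (Nb c i v ∩ E m).Countable} ⊆
            ⋃ i : Fin (k + 1), {m | i ≠ 0 ∧ ¬ (Nb c i v ∩ E m).Countable} := by
          rintro m ⟨i, hi⟩
          exact mem_iUnion.2 ⟨i, hi⟩
        refine Set.Finite.subset (Set.finite_iUnion ?_) this
        intro i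
        by_cases hi : i = 0
        · simp [hi]
        · have := h n v hv i hi
          refine this.subset ?_
          rintro m ⟨_, hm⟩
          exact hm
      -- choose the bound
      have hbd : ∀ n, ∃ b : ℕ, ¬ {v ∈ E n | ∀ m, b < m → ∀ i, i ≠ 0 → (Nb c i v ∩ E m).Countable}.Countable := by
        intro n
        by_contra hcon
        push Not at hcon
        apply hG.unc n
        refine (countable_iUnion hcon).mono ?_
        intro v hv
        obtain ⟨b, hb⟩ := (hfin n v hv).bddAbove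
        refine mem_iUnion.2 ⟨b, hv, ?_⟩
        intro m hm i hi
        by_contra hc
        exact absurd (hb ⟨i, hi, hc⟩) (not_le.2 hm)
      choose b hb using hbd
      let e : ℕ → ℕ := fun j => (fun n => max n (b n) + 1)^[j] 0
      have hes : ∀ j, e (j + 1) = max (e j) (b (e j)) + 1 := by
        intro j
        simp only [e, Function.iterate_succ_apply']
      have he : StrictMono e := strictMono_nat_of_lt_succ (fun j => by rw [hes]; omega)
      have heb : ∀ i j, i < j → b (e i) < e j := by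
        intro i j hij
        have h1 : e (i + 1) ≤ e j := he.monotone hij
        rw [hes] at h1
        omega
      have hG' := hG.sub he (E' := fun j => {v ∈ E (e j) | ∀ m, b (e j) < m → ∀ i, i ≠ 0 → (Nb c i v ∩ E m).Countable})
        (fun j => sep_subset _ _) (fun j => hb (e j))
      refine ⟨_, _, hG', ?_⟩
      intro n m v hv i hi
      rcases le_or_gt n m with hnm | hnm
      · exact hG'.low n m hnm v hv i hi
      · exact (hv.2 (e n) (heb m n hnm) i hi).mono (inter_subset_inter_right _ (sep_subset _ _))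

/-- the final recursion of length `ω₁` -/
theorem rec_choice (E : ℕ → Set V) (hE : ∀ n, ¬ (E n).Countable) (Bad : V → Set V)
    (hBad : ∀ n m, ∀ v ∈ E m, (Bad v ∩ E n).Countable) :
    ∃ (I : Type) (x : I × ℕ → V), Uncountable I ∧ (∀ p, x p ∈ E p.2) ∧
      ∀ p q : I × ℕ, p ≠ q → x p ≠ x q ∧ (x p ∉ Bad (x q) ∨ x q ∉ Bad (x p)) := by
  classical
  let I : Type := (Cardinal.aleph 1).ord.ToType
  have hI : Cardinal.mk I = Cardinal.aleph 1 := Cardinal.mk_ord_toType _
  have hIN : Cardinal.mk (I × ℕ) = Cardinal.aleph 1 := by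
    rw [Cardinal.mk_prod, hI]
    simp
  obtain ⟨r, wo, hr⟩ := Cardinal.exists_ord_eq (I × ℕ)
  have hcount : ∀ p : I × ℕ, {q | r q p}.Countable := by
    intro p
    have h1 := Cardinal.card_typein_lt (r := r) p hr
    rw [hIN, Cardinal.lt_aleph_one_iff] at h1
    exact (Cardinal.le_aleph0_iff_set_countable (s := {q | r q p})).1 h1
  have hwf : WellFounded r := wo.wf
  let v₀ : V := (exists_of_unc (hE 0)).some
  let nx : ∀ p : I × ℕ, (∀ q, r q p → V) → V := fun p prev =>
    if h : (E p.2 \ ⋃ q : {q // r q p}, (Bad (prev q.1 q.2) ∪ {prev q.1 q.2})).Nonempty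
      then h.some else v₀
  let x : I × ℕ → V := hwf.fix nx
  have hx : ∀ p, x p = nx p (fun q _ => x q) := fun p => hwf.fix_eq nx p
  have key : ∀ p, x p ∈ E p.2 \ ⋃ q : {q // r q p}, (Bad (x q.1) ∪ {x q.1}) := by
    intro p
    induction p using hwf.induction with
    | _ p ih =>
      have hne : (E p.2 \ ⋃ q : {q // r q p}, (Bad (x q.1) ∪ {x q.1})).Nonempty := by
        by_contra hcon
        rw [not_nonempty_iff_eq_empty, sdiff_eq_empty] at hcon
        apply hE p.2
        have : Countable {q // r q p} := (hcount p).to_subtype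
        have : (⋃ q : {q // r q p}, ((Bad (x q.1) ∪ {x q.1}) ∩ E p.2)).Countable := by
          refine countable_iUnion fun q => ?_
          rw [union_inter_distrib_right]
          exact (hBad p.2 q.1.2 (x q.1) (ih q.1 q.2).1).union
            ((countable_singleton _).mono inter_subset_left)
        refine this.mono ?_
        intro v hv
        obtain ⟨q, hq⟩ := mem_iUnion.1 (hcon hv)
        exact mem_iUnion.2 ⟨q, hq, hv⟩
      rw [hx p]
      simp only [nx]
      rw [dif_pos hne]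
      exact hne.some_mem
  refine ⟨I, x, ?_, fun p => (key p).1, ?_⟩
  · rw [← Cardinal.aleph0_lt_mk_iff, hI]
    exact Cardinal.aleph0_lt_aleph_one
  · have main : ∀ p q, r q p → x p ≠ x q ∧ x p ∉ Bad (x q) := by
      intro p q hqp
      have h2 := (key p).2
      constructor
      · intro he
        exact h2 (mem_iUnion.2 ⟨⟨q, hqp⟩, Or.inr he⟩)
      · intro he
        exact h2 (mem_iUnion.2 ⟨⟨q, hqp⟩, Or.inl he⟩)
    intro p q hpq
    rcases trichotomous_of r p q with h | h | h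
    · have := main q p h
      exact ⟨this.1.symm, Or.inr this.2⟩
    · exact absurd h hpq
    · have := main p q h
      exact ⟨this.1, Or.inl this.2⟩


/-- from a good sequence to a homogeneous set -/
theorem homog_of_good (π : V → Ω) (c : V → V → Fin (k + 1)) (hsymm : ∀ x y, c x y = c y x)
    (htri : ∀ i, i ≠ 0 → ∀ x y z, x ≠ y → x ≠ z → y ≠ z → c x y = i → c x z = i → c y z = i → False)
    (E : ℕ → Set V) (a : ℕ → Ω) (hun : ∀ n, ¬ (E n).Countable)
    (hcol : ∀ n, ∀ x ∈ E n, π x = a n) (hinj : Function.Injective a)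
    (hlow : ∀ n m, n < m → ∀ v ∈ E m, ∀ i, i ≠ 0 → (Nb c i v ∩ E n).Countable) :
    ∃ H : Set V, (∀ x ∈ H, ∀ y ∈ H, x ≠ y → c x y = 0) ∧
      {b : Ω | ¬ (H ∩ {x | π x = b}).Countable}.Infinite := by
  classical
  -- thin inside each column
  have h1 : ∀ n, ∃ E' ⊆ E n, ¬ E'.Countable ∧ ∀ v ∈ E', ∀ i, i ≠ 0 → (Nb c i v ∩ E').Countable :=
    fun n => thin_one c htri Finset.univ (E n) (hun n) (fun _ _ _ _ _ _ => Finset.mem_univ _)
  choose E₁ hE₁ hun₁ hin using h1
  have hG : Good π c E₁ a := {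
    unc := hun₁
    col := fun n x hx => hcol n x (hE₁ n hx)
    inj := hinj
    low := by
      intro n m hnm v hv i hi
      rcases eq_or_lt_of_le hnm with h | h
      · subst h
        exact hin n v hv i hi
      · exact (hlow n m h v (hE₁ m hv) i hi).mono (inter_subset_inter_right _ (hE₁ n)) }
  obtain ⟨E₂, a₂, hG₂, hall⟩ := thin_seq π c htri Finset.univ E₁ a hG
    (fun _ _ _ _ _ _ _ _ => Finset.mem_univ _)
  obtain ⟨I, x, hI, hx, hpair⟩ := rec_choice E₂ hG₂.unc (fun v => {w | w ≠ v ∧ c v w ≠ 0}) (by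
    intro n m v hv
    have : {w | w ≠ v ∧ c v w ≠ 0} ∩ E₂ n ⊆ ⋃ i : {i : Fin (k + 1) // i ≠ 0}, (Nb c i.1 v ∩ E₂ n) := by
      rintro w ⟨⟨hw1, hw2⟩, hw3⟩
      exact mem_iUnion.2 ⟨⟨c v w, hw2⟩, ⟨hw1, rfl⟩, hw3⟩
    exact (countable_iUnion fun i : {i : Fin (k + 1) // i ≠ 0} => hall n m v hv i.1 i.2).mono this)
  refine ⟨range x, ?_, ?_⟩
  · rintro _ ⟨p, rfl⟩ _ ⟨q, rfl⟩ hne
    have hpq : p ≠ q := fun h => hne (by rw [h])
    rcases (hpair p q hpq).2 with h | h
    · by_contra hc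
      exact h ⟨hne, by rw [hsymm]; exact hc⟩
    · by_contra hc
      exact h ⟨hne.symm, hc⟩
  · refine (infinite_range_of_injective hG₂.inj).mono ?_
    rintro _ ⟨n, rfl⟩
    intro hcount
    have hinjx : Function.Injective (fun ξ : I => x (ξ, n)) := by
      intro ξ η h
      by_contra hne
      exact (hpair (ξ, n) (η, n) (by simpa using hne)).1 h
    have : (range (fun ξ : I => x (ξ, n))).Countable := by
      refine hcount.mono ?_
      rintro _ ⟨ξ, rfl⟩
      exact ⟨⟨_, rfl⟩, hG₂.col n _ (hx (ξ, n))⟩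
    rw [← image_univ] at this
    exact not_countable_univ (Set.countable_of_injective_of_countable_image hinjx.injOn this)

/-- colours in `S` seen by a finite set `Z` on `D` -/
noncomputable def SZ (c : V → V → Fin (k + 1)) (Z : Finset V) (D : Set V) : Finset (Fin (k + 1)) :=
  by classical exact Finset.univ.filter (fun i => i ≠ 0 ∧ ∃ z ∈ Z, ¬ (Nb c i z ∩ D).Countable)

theorem mem_SZ {c : V → V → Fin (k + 1)} {Z : Finset V} {D : Set V} {i : Fin (k + 1)} :
    i ∈ SZ c Z D ↔ i ≠ 0 ∧ ∃ z ∈ Z, ¬ (Nb c i z ∩ D).Countable := by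
  simp [SZ]

theorem SZ_mono {c : V → V → Fin (k + 1)} {Z Z' : Finset V} {D D' : Set V} (hZ : Z ⊆ Z')
    (hD : D ⊆ D') : SZ c Z D ⊆ SZ c Z' D' := by
  intro i hi
  rw [mem_SZ] at hi ⊢
  obtain ⟨h0, z, hz, h⟩ := hi
  exact ⟨h0, z, hZ hz, fun hc => h (hc.mono (inter_subset_inter_right _ hD))⟩

/-- the ideal -/
def Small (π : V → Ω) (X : Set V) : Prop := {b : Ω | ¬ (X ∩ {x | π x = b}).Countable}.Countable

/-- generic points -/
def Gen (π : V → Ω) (M : Set (Set V)) (z : V) : Prop := ∀ X ∈ M, Small π X → z ∉ X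

/-- column sets -/
def IsCol (π : V → Ω) (D : Set V) : Prop := ¬ D.Countable ∧ ∃ b, ∀ x ∈ D, π x = b

/-- the bootstrapping property -/
def BB (π : V → Ω) (c : V → V → Fin (k + 1)) (A : Set V) (l : ℕ) : Prop :=
  ∀ M : Set (Set V), M.Countable → ∃ Z : Finset V, (∀ z ∈ Z, z ∈ A ∧ Gen π M z) ∧
    ∀ D ∈ M, D ⊆ A → IsCol π D → l ≤ (SZ c Z D).card

theorem Small.sUnion {π : V → Ω} {M : Set (Set V)} (hM : M.Countable) (h : ∀ X ∈ M, Small π X) :
    Small π (⋃₀ M) := by
  have : {b : Ω | ¬ ((⋃₀ M) ∩ {x | π x = b}).Countable} ⊆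
      ⋃ X ∈ M, {b : Ω | ¬ (X ∩ {x | π x = b}).Countable} := by
    intro b hb
    by_contra hcon
    simp only [mem_iUnion, not_exists, mem_ofPred_eq, not_not] at hcon
    apply hb
    rw [sUnion_eq_biUnion, iUnion₂_inter]
    exact hM.biUnion hcon
  exact (hM.biUnion h).mono this

theorem exists_gen {π : V → Ω} {A : Set V} (hA : ¬ Small π A) {M : Set (Set V)} (hM : M.Countable) :
    ∃ z ∈ A, Gen π M z := by
  by_contra hcon
  simp only [Gen, not_exists, not_and, not_forall, not_not] at hcon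
  apply hA
  have h1 : Small π (⋃₀ {X ∈ M | Small π X}) :=
    Small.sUnion (hM.mono (sep_subset _ _)) (fun X hX => hX.2)
  refine h1.mono ?_
  intro b hb hc
  apply hb
  refine hc.mono ?_
  rintro x ⟨hxA, hxb⟩
  obtain ⟨X, hXM, hXs, hxX⟩ := hcon x hxA
  exact ⟨⟨X, ⟨hXM, hXs⟩, hxX⟩, hxb⟩

/-- covering lemma -/
theorem cover (π : V → Ω) (c : V → V → Fin (k + 1)) (A : Set V) (hA : ¬ Small π A) (l : ℕ)
    (hB : BB π c A l) (t : ℕ) :
    ∀ M : Set (Set V), M.Countable → ∃ Z : Finset V, Z.Nonempty ∧ (∀ z ∈ Z, z ∈ A ∧ Gen π M z) ∧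
      ∀ D ∈ M, D ⊆ A → IsCol π D → (SZ c Z D).card ≤ l → ∀ Q : Finset (Fin (k + 1)), Q.card + t ≤ l →
        ∃ T : Finset (Fin (k + 1) × V), (∀ p ∈ T, p.1 ≠ 0 ∧ p.1 ∉ Q ∧ p.2 ∈ Z) ∧
          t ≤ (T.image Prod.fst).card ∧ ¬ {x ∈ D | ∀ p ∈ T, x ∈ Nb c p.1 p.2}.Countable := by
  classical
  induction t with
  | zero =>
    intro M hM
    obtain ⟨z, hzA, hz⟩ := exists_gen hA hM
    refine ⟨{z}, by simp, by simpa using ⟨hzA, hz⟩, ?_⟩
    intro D hD hDA hDc _ Q _
    exact ⟨∅, by simp, by simp, by simpa using hDc.1⟩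
  | succ t ih =>
    intro M hM
    obtain ⟨ζ, hζ, hζD⟩ := hB M hM
    let M' : Set (Set V) := M ∪ ⋃ D ∈ M, ⋃ z ∈ ζ, ⋃ i : Fin (k + 1), {Nb c i z ∩ D}
    have hM' : M'.Countable := by
      refine hM.union (hM.biUnion fun D _ => ?_)
      refine Set.Countable.biUnion ζ.countable_toSet fun z _ => ?_
      exact countable_iUnion fun i => countable_singleton _
    obtain ⟨Z', hne, hZ', hcov⟩ := ih M' hM'
    refine ⟨ζ ∪ Z', hne.mono Finset.subset_union_right, ?_, ?_⟩
    · intro z hz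
      rcases Finset.mem_union.1 hz with h | h
      · exact hζ z h
      · exact ⟨(hZ' z h).1, fun X hX => (hZ' z h).2 X (Or.inl hX)⟩
    · intro D hD hDA hDc hcard Q hQ
      have h1 := hζD D hD hDA hDc
      have h2 : ∃ i ∈ SZ c ζ D, i ∉ Q := by
        by_contra hcon
        push Not at hcon
        have := Finset.card_le_card (show SZ c ζ D ⊆ Q from hcon)
        omega
      obtain ⟨i, hi, hiQ⟩ := h2
      obtain ⟨hi0, z, hz, hzD⟩ := mem_SZ.1 hi
      have hD'M : Nb c i z ∩ D ∈ M' :=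
        Or.inr (mem_iUnion₂.2 ⟨D, hD, mem_iUnion₂.2 ⟨z, hz, mem_iUnion.2 ⟨i, rfl⟩⟩⟩)
      obtain ⟨T, hT1, hT2, hT3⟩ := hcov (Nb c i z ∩ D) hD'M (inter_subset_right.trans hDA)
        ⟨hzD, hDc.2.imp fun b hb x hx => hb x hx.2⟩
        ((Finset.card_le_card (SZ_mono Finset.subset_union_right inter_subset_right)).trans hcard)
        (insert i Q) (by rw [Finset.card_insert_of_notMem hiQ]; omega)
      refine ⟨insert (i, z) T, ?_, ?_, ?_⟩
      · intro p hp
        rcases Finset.mem_insert.1 hp with h | h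
        · subst h
          exact ⟨hi0, hiQ, Finset.mem_union_left _ hz⟩
        · obtain ⟨ha, hb, hc⟩ := hT1 p h
          exact ⟨ha, fun h' => hb (Finset.mem_insert_of_mem h'), Finset.mem_union_right _ hc⟩
      · rw [Finset.image_insert, Finset.card_insert_of_notMem]
        · omega
        · intro h
          obtain ⟨p, hp, hpi⟩ := Finset.mem_image.1 h
          apply (hT1 p hp).2.1
          rw [hpi]
          exact Finset.mem_insert_self _ _
      · intro hc
        apply hT3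
        refine hc.mono ?_
        rintro x ⟨⟨hx1, hx2⟩, hx3⟩
        refine ⟨hx2, ?_⟩
        intro p hp
        rcases Finset.mem_insert.1 hp with h | h
        · subst h
          exact hx1
        · exact hx3 p h

theorem core (π : V → Ω) (hV : ¬ Small π (univ : Set V)) (c : V → V → Fin (k + 1))
    (hsymm : ∀ x y, c x y = c y x)
    (htri : ∀ i, i ≠ 0 → ∀ x y z, x ≠ y → x ≠ z → y ≠ z → c x y = i → c x z = i → c y z = i → False) :
    ∃ H : Set V, (∀ x ∈ H, ∀ y ∈ H, x ≠ y → c x y = 0) ∧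
      {b : Ω | ¬ (H ∩ {x | π x = b}).Countable}.Infinite := by
  classical
  -- maximal level
  have hmax : ∃ l : ℕ, (∃ A, ¬ Small π A ∧ BB π c A l) ∧ ¬ (∃ A, ¬ Small π A ∧ BB π c A (l + 1)) := by
    by_contra hcon
    push Not at hcon
    have hall : ∀ l : ℕ, ∃ A, ¬ Small π A ∧ BB π c A l := by
      intro l
      induction l with
      | zero => exact ⟨univ, hV, fun M hM => ⟨∅, by simp, by simp⟩⟩
      | succ l ih =>
        obtain ⟨A, h1, h2⟩ := ih
        exact hcon l ⟨A, h1, h2⟩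
    obtain ⟨A, hA, hB⟩ := hall (k + 2)
    have hex : ∃ b, ¬ (A ∩ {x | π x = b}).Countable := by
      by_contra hc
      push Not at hc
      apply hA
      have : {b : Ω | ¬ (A ∩ {x | π x = b}).Countable} = ∅ := by
        ext b
        simp [hc b]
      rw [Small, this]
      exact countable_empty
    obtain ⟨b, hb⟩ := hex
    obtain ⟨Z, _, hZ⟩ := hB {A ∩ {x | π x = b}} (countable_singleton _)
    have h1 := hZ _ rfl inter_subset_left ⟨hb, b, fun x hx => hx.2⟩
    have h2 := Finset.card_le_univ (SZ c Z (A ∩ {x | π x = b}))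
    simp at h2
    omega
  obtain ⟨l, ⟨A, hA, hB⟩, hnot⟩ := hmax
  have hfail : ∀ X : Set V, ∃ M : Set (Set V), M.Countable ∧ (¬ Small π X →
      ∀ Z : Finset V, (∀ z ∈ Z, z ∈ X ∧ Gen π M z) →
        ∃ D ∈ M, D ⊆ X ∧ IsCol π D ∧ (SZ c Z D).card ≤ l) := by
    intro X
    by_cases hX : Small π X
    · exact ⟨∅, countable_empty, fun h => absurd hX h⟩
    · have : ¬ BB π c X (l + 1) := fun h => hnot ⟨X, hX, h⟩
      unfold BB at this
      push Not at this
      obtain ⟨M, hM, h⟩ := this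
      refine ⟨M, hM, fun _ Z hZ => ?_⟩
      obtain ⟨D, h1, h2, h3, h4⟩ := h Z hZ
      exact ⟨D, h1, h2, h3, by omega⟩
  choose MM hMMc hMM using hfail
  let sat : Set V → Set V := fun D => {v | ∃ w ∈ D, π w = π v}
  let F : Set V → Set V → Set (Set V) := fun X D => MM X ∪ ({sat D} ∪
    ⋃ L : Finset (Fin (k + 1)), {{v ∈ X | SZ c {v} D ⊆ L} \ sat D})
  obtain ⟨M₁, hAM, hM₁c, hclosed⟩ := exists_closure F (fun X D =>
    (hMMc X).union ((countable_singleton _).union (countable_iUnion fun L => countable_singleton _)))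
    {A} (countable_singleton _)
  obtain ⟨Z, hZne, hZ, hcov⟩ := cover π c A hA l hB l M₁ hM₁c
  -- the step
  have hstep : ∀ X : Set V, ∃ D : Set V, (X ∈ M₁ ∧ X ⊆ A ∧ (∀ z ∈ Z, z ∈ X)) →
      D ∈ M₁ ∧ D ⊆ X ∧ IsCol π D ∧ (SZ c Z D).card ≤ l := by
    intro X
    by_cases hX : X ∈ M₁ ∧ X ⊆ A ∧ (∀ z ∈ Z, z ∈ X)
    · obtain ⟨hX1, hX2, hX3⟩ := hX
      have hpos : ¬ Small π X := by
        intro hs
        obtain ⟨z, hz⟩ := hZne
        exact (hZ z hz).2 X hX1 hs (hX3 z hz)
      have hsub : MM X ⊆ M₁ := subset_union_left.trans (hclosed X hX1 X hX1)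
      obtain ⟨D, h1, h2, h3, h4⟩ := hMM X hpos Z
        (fun z hz => ⟨hX3 z hz, fun Y hY => (hZ z hz).2 Y (hsub hY)⟩)
      exact ⟨D, fun _ => ⟨hsub h1, h2, h3, h4⟩⟩
    · exact ⟨∅, fun h => absurd h hX⟩
  choose DD hDD using hstep
  let nx : Set V → Set V := fun X => {v ∈ X | SZ c {v} (DD X) ⊆ SZ c Z (DD X)} \ sat (DD X)
  let X : ℕ → Set V := fun n => nx^[n] A
  have hXs : ∀ n, X (n + 1) = nx (X n) := fun n => Function.iterate_succ_apply' nx n A
  have hX : ∀ n, X n ∈ M₁ ∧ X n ⊆ A ∧ (∀ z ∈ Z, z ∈ X n) := by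
    intro n
    induction n with
    | zero => exact ⟨hAM rfl, subset_rfl, fun z hz => (hZ z hz).1⟩
    | succ n ih =>
      obtain ⟨hD1, hD2, hD3, hD4⟩ := hDD (X n) ih
      rw [hXs]
      refine ⟨?_, ?_, ?_⟩
      · exact hclosed (X n) ih.1 (DD (X n)) hD1 (Or.inr (Or.inr (mem_iUnion.2 ⟨_, rfl⟩)))
      · exact (sdiff_subset.trans (sep_subset _ _)).trans ih.2.1
      · intro z hz
        refine ⟨⟨ih.2.2 z hz, SZ_mono (by simpa using hz) subset_rfl⟩, ?_⟩
        have hsatM : sat (DD (X n)) ∈ M₁ := hclosed (X n) ih.1 (DD (X n)) hD1 (Or.inr (Or.inl rfl))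
        refine (hZ z hz).2 _ hsatM ?_
        obtain ⟨b, hb⟩ := hD3.2
        refine (countable_singleton b).mono ?_
        intro b' hb'
        obtain ⟨x, ⟨w, hw, hwx⟩, hx⟩ := exists_of_unc hb'
        have h1 : π x = b' := hx
        have h2 := hb w hw
        rw [mem_singleton_iff, ← h1, ← hwx, h2]
  have hXanti : Antitone X := antitone_nat_of_succ_le (fun n => by
    rw [hXs]
    exact sdiff_subset.trans (sep_subset _ _))
  -- the columns
  let D : ℕ → Set V := fun n => DD (X n)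
  have hD : ∀ n, D n ∈ M₁ ∧ D n ⊆ X n ∧ IsCol π (D n) ∧ (SZ c Z (D n)).card ≤ l :=
    fun n => hDD (X n) (hX n)
  have hT : ∀ n, ∃ T : Finset (Fin (k + 1) × V), (∀ p ∈ T, p.1 ≠ 0 ∧ p.1 ∉ (∅ : Finset (Fin (k + 1))) ∧ p.2 ∈ Z) ∧
      l ≤ (T.image Prod.fst).card ∧ ¬ {x ∈ D n | ∀ p ∈ T, x ∈ Nb c p.1 p.2}.Countable :=
    fun n => hcov (D n) (hD n).1 ((hD n).2.1.trans (hX n).2.1) (hD n).2.2.1 (hD n).2.2.2 ∅ (by simp)
  choose T hT1 hT2 hT3 using hT
  have hTmem : ∀ n, T n ∈ (Finset.univ ×ˢ Z).powerset := by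
    intro n
    rw [Finset.mem_powerset]
    intro p hp
    exact Finset.mem_product.2 ⟨Finset.mem_univ _, (hT1 n p hp).2.2⟩
  obtain ⟨T₀, hT₀⟩ := Finite.exists_infinite_fiber
    (fun n => (⟨T n, hTmem n⟩ : {S // S ∈ ((Finset.univ : Finset (Fin (k + 1))) ×ˢ Z).powerset}))
  have hinf : {n | T n = T₀.1}.Infinite := by
    have := Set.infinite_coe_iff.1 hT₀
    refine this.mono ?_
    intro n hn
    exact congrArg Subtype.val hn
  let e : ℕ → ℕ := Nat.nth (fun n => T n = T₀.1)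
  have he : StrictMono e := Nat.nth_strictMono hinf
  have heT : ∀ n, T (e n) = T₀.1 := fun n => Nat.nth_mem_of_infinite hinf n
  have himg : ∀ n, T₀.1.image Prod.fst = SZ c Z (D (e n)) := by
    intro n
    refine Finset.eq_of_subset_of_card_le ?_ ?_
    · intro i hi
      obtain ⟨p, hp, hpi⟩ := Finset.mem_image.1 hi
      rw [← heT n] at hp
      have h1 := hT1 (e n) p hp
      subst hpi
      refine mem_SZ.2 ⟨h1.1, p.2, h1.2.2, ?_⟩
      intro hc
      apply hT3 (e n)
      refine hc.mono ?_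
      rintro x ⟨hx1, hx2⟩
      exact ⟨hx2 p hp, hx1⟩
    · have := hT2 (e n)
      rw [heT] at this
      exact (hD (e n)).2.2.2.trans this
  choose col hcol using fun n => (hD n).2.2.1.2
  refine homog_of_good π c hsymm htri (fun n => {x ∈ D (e n) | ∀ p ∈ T₀.1, x ∈ Nb c p.1 p.2})
    (fun n => col (e n)) ?_ ?_ ?_ ?_
  · intro n
    have := hT3 (e n)
    rwa [heT] at this
  · intro n x hx
    exact hcol (e n) x hx.1
  · have hne : ∀ n m, n < m → col n ≠ col m := by
      intro n m hnm h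
      obtain ⟨x, hx⟩ := exists_of_unc (hD m).2.2.1.1
      obtain ⟨w, hw⟩ := exists_of_unc (hD n).2.2.1.1
      have h1 : x ∈ X (n + 1) := hXanti (Nat.succ_le_of_lt hnm) ((hD m).2.1 hx)
      rw [hXs] at h1
      apply h1.2
      refine ⟨w, hw, ?_⟩
      rw [hcol n w hw, hcol m x hx, h]
    intro n m h
    rcases lt_trichotomy n m with h' | h' | h'
    · exact absurd h (hne _ _ (he h'))
    · exact h'
    · exact absurd h.symm (hne _ _ (he h'))
  · intro n m hnm v hv i hi
    have hvX : v ∈ X (e n + 1) := hXanti (Nat.succ_le_of_lt (he hnm)) ((hD (e m)).2.1 hv.1)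
    rw [hXs] at hvX
    have hvS : SZ c {v} (D (e n)) ⊆ SZ c Z (D (e n)) := hvX.1.2
    by_cases hiS : i ∈ SZ c Z (D (e n))
    · rw [← himg n] at hiS
      obtain ⟨p, hp, hpi⟩ := Finset.mem_image.1 hiS
      have : Nb c i v ∩ {x ∈ D (e n) | ∀ p ∈ T₀.1, x ∈ Nb c p.1 p.2} = ∅ := by
        ext w
        simp only [mem_empty_iff_false, iff_false]
        rintro ⟨hw1, hw2⟩
        have hv' := hv.2 p hp
        have hw' := hw2.2 p hp
        subst hpi
        exact htri p.1 hi p.2 v w hv'.1.symm hw'.1.symm hw1.1.symm hv'.2 hw'.2 hw1.2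
      rw [this]
      exact countable_empty
    · have h1 : i ∉ SZ c {v} (D (e n)) := fun h => hiS (hvS h)
      rw [mem_SZ] at h1
      push Not at h1
      exact (h1 hi v (Finset.mem_singleton_self v)).mono (inter_subset_inter_right _ (sep_subset _ _))

end Nb

end Pool.Agent.H370.OmegaOneCore
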